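import Mathlib

/-! Project HC, part A3: multiplicatively independent elements are independent modulo `r`-th powers
for large primes `r`. -/

set_option autoImplicit false

open NumberField

namespace Pool.Agent.H800.HC

theorem indep (F ι : Type) [Field F] [NumberField F] [Fintype ι] (b : ι → 𝓞 F)
    (hb : ∀ i, b i ≠ 0) (hind : ∀ n : ι → ℤ, ∏ i, (b i : F) ^ n i = 1 → n = 0) :
    ∃ r0 : ℕ, ∀ r : ℕ, r.Prime → r0 < r → ∀ x : ι → ZMod r,
      (∃ ε : 𝓞 F, ε ^ r = ∏ i, b i ^ (x i).val) → x = 0 := by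
  classical
  by_contra hcon
  push Not at hcon
  obtain ⟨P, hP⟩ : ∃ P : ℕ → 𝓞 F → Prop, P = fun r ε =>
    ∃ x : ι → ZMod r, x ≠ 0 ∧ ε ^ r = ∏ i, b i ^ (x i).val := ⟨_, rfl⟩
  let R : Set ℕ := {r | r.Prime ∧ ∃ ε, P r ε}
  have hR : R.Infinite := by
    refine Set.infinite_of_forall_exists_gt fun r0 => ?_
    obtain ⟨r, hr, hr0, x, ⟨ε, hε⟩, hx⟩ := hcon r0
    exact ⟨r, ⟨hr, ε, by rw [hP]; exact ⟨x, hx, hε⟩⟩, hr0⟩
  let f : ℕ → 𝓞 F := fun r => if h : ∃ ε, P r ε then h.choose else 0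
  have hf : ∀ r ∈ R, P r (f r) := by
    intro r hr
    simp only [f, dif_pos hr.2]
    exact hr.2.choose_spec
  let Cφ : (F →+* ℂ) → ℝ := fun φ => ∏ i, max 1 ‖φ (b i)‖
  have hC1 : ∀ φ, 1 ≤ Cφ φ := fun φ => Finset.prod_induction _ (fun y => 1 ≤ y)
    (fun a b ha hb => one_le_mul_of_one_le_of_one_le ha hb) le_rfl (fun i _ => le_max_left _ _)
  let Cc : ℝ := ∑ φ, Cφ φ
  have hCc : ∀ φ, Cφ φ ≤ Cc := fun φ =>
    Finset.single_le_sum (f := Cφ) (fun ψ _ => (zero_le_one.trans (hC1 ψ))) (Finset.mem_univ φ)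
  have hfin := NumberField.Embeddings.finite_of_norm_le F ℂ Cc
  have hbd : ∀ r ∈ R, ((f r : 𝓞 F) : F) ∈ {x : F | IsIntegral ℤ x ∧ ∀ φ : F →+* ℂ, ‖φ x‖ ≤ Cc} := by
    intro r hr
    refine ⟨(f r).isIntegral_coe, fun φ => ?_⟩
    have h1 := hf r hr
    rw [hP] at h1
    obtain ⟨x, hx, h1⟩ := h1
    have hr1 : r.Prime := hr.1
    have : NeZero r := ⟨hr1.ne_zero⟩
    have h2 : (f r : F) ^ r = ∏ i, (b i : F) ^ (x i).val := by
      have := congrArg (algebraMap (𝓞 F) F) h1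
      simpa [map_prod] using this
    have h3 : ‖φ (f r)‖ ^ r ≤ Cφ φ ^ r := by
      rw [← norm_pow, ← map_pow, h2, map_prod, norm_prod, ← Finset.prod_pow]
      refine Finset.prod_le_prod (fun i _ => norm_nonneg _) fun i _ => ?_
      rw [map_pow, norm_pow]
      calc ‖φ (b i)‖ ^ (x i).val ≤ (max 1 ‖φ (b i)‖) ^ (x i).val :=
            pow_le_pow_left₀ (norm_nonneg _) (le_max_right _ _) _
        _ ≤ (max 1 ‖φ (b i)‖) ^ r := pow_le_pow_right₀ (le_max_left _ _) (ZMod.val_lt _).le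
    exact (pow_le_pow_iff_left₀ (norm_nonneg _) (zero_le_one.trans (hC1 φ)) hr1.ne_zero).1 h3
      |>.trans (hCc φ)
  obtain ⟨r, hr, r', hr', hne, heq⟩ := hR.exists_ne_map_eq_of_mapsTo
    (f := fun r => ((f r : 𝓞 F) : F)) hbd hfin
  have heq' : f r = f r' := RingOfIntegers.coe_injective heq
  have h1 := hf r hr
  have h2 := hf r' hr'
  rw [hP] at h1 h2
  obtain ⟨x, hx, h1⟩ := h1
  obtain ⟨x', hx', h2⟩ := h2
  have hr1 : r.Prime := hr.1
  have hr1' : r'.Prime := hr'.1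
  have : NeZero r := ⟨hr1.ne_zero⟩
  have h3 : ∏ i, b i ^ ((x i).val * r') = ∏ i, b i ^ ((x' i).val * r) := by
    simp only [pow_mul]
    rw [Finset.prod_pow, Finset.prod_pow, ← h1, ← h2, heq', ← pow_mul, ← pow_mul, mul_comm]
  have h4 : ∏ i, (b i : F) ^ (((x i).val * r' : ℕ) : ℤ) = ∏ i, (b i : F) ^ (((x' i).val * r : ℕ) : ℤ) := by
    simp only [zpow_natCast]
    have := congrArg (algebraMap (𝓞 F) F) h3
    simpa [map_prod] using this
  have hbF : ∀ i, (b i : F) ≠ 0 := fun i => by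
    intro h
    apply hb i
    exact RingOfIntegers.coe_injective h
  have h5 := hind (fun i => (((x i).val * r' : ℕ) : ℤ) - (((x' i).val * r : ℕ) : ℤ)) (by
    have h6 : ∀ i, (b i : F) ^ ((((x i).val * r' : ℕ) : ℤ) - (((x' i).val * r : ℕ) : ℤ)) =
        (b i : F) ^ (((x i).val * r' : ℕ) : ℤ) / (b i : F) ^ (((x' i).val * r : ℕ) : ℤ) :=
      fun i => zpow_sub₀ (hbF i) _ _
    simp only [h6]
    rw [Finset.prod_div_distrib, h4, div_self]
    exact Finset.prod_ne_zero_iff.2 fun i _ => zpow_ne_zero _ (hbF i))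
  apply hx
  funext i
  have h6 := congrFun h5 i
  simp only [Pi.zero_apply, sub_eq_zero] at h6
  have h7 : (x i).val * r' = (x' i).val * r := by exact_mod_cast h6
  have h8 : r ∣ (x i).val := by
    have h9 : r ∣ (x i).val * r' := ⟨(x' i).val, by rw [h7, mul_comm]⟩
    exact ((Nat.coprime_primes hr1 hr1').2 hne).dvd_of_dvd_mul_right h9
  have h9 := Nat.eq_zero_of_dvd_of_lt h8 (ZMod.val_lt _)
  rwa [ZMod.val_eq_zero] at h9

end Pool.Agent.H800.HC
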