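import Pool.Agent.H500.HC.Stm
import Pool.Agent.H800.HC.Indep0

set_option autoImplicit false

namespace Pool.Agent.H800.HC.Indep

theorem main : Pool.Agent.H500.HC.S_Indep := fun F ι _ _ _ b h1 h2 =>
  Pool.Agent.H800.HC.indep F ι b h1 h2

end Pool.Agent.H800.HC.Indep
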